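import Pool.Agent.R509GA.Exist
import Pool.Agent.R509GA.Quantum

set_option autoImplicit false

/-!
# MP_3b70de_al: isomorphism game algebras need not embed in full group C*-algebras of solution groups

The answer to Q1 is no. The obstruction is the trivial character of a full group C*-algebra: a
unital *-homomorphism from `𝒜(G,H)` to `C*(Λ)`, for any discrete group `Λ`, forces `G` and `H` to
be isomorphic. The two graphs on 24 vertices of the Mermin-Peres magic square are not isomorphic
and have `𝒜(G,H) ≠ 0`.
-/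

namespace Pool.Agent.Results.MP_3b70de_al.NoEmbedding

open Pool.Agent.R509GA
open scoped ComplexOrder

universe u v

theorem result :
    -- obstruction: finite graphs `G, H`, a model `A` of `𝒜(G,H)`, a discrete group `Λ`, a model
    -- `C` of its full group C*-algebra; a unital *-homomorphism `A → C` forces `G ≅ H`
    (∀ (V W : Type) [Fintype V] [Fintype W] (G : SimpleGraph V) (H : SimpleGraph W)
      (A : Type u) [CStarAlgebra A] (p : V → W → A), IsGameAlgebra G H A p →
      ∀ (Λ : Type) [Group Λ] (C : Type v) [CStarAlgebra C] (w : Λ →* unitary C),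
        IsGroupCStar Λ C w → ∀ _φ : A →⋆ₐ[ℂ] C, Nonempty (G ≃g H)) ∧
    -- counterexample: two graphs on 24 vertices
    ∃ (V : Type) (_ : Fintype V) (G H : SimpleGraph V), Fintype.card V = 24 ∧
      ¬ Nonempty (G ≃g H) ∧
      -- `𝒜(G,H)` exists
      (∃ (A : Type 1) (_ : CStarAlgebra A) (p : V → V → A), IsGameAlgebra G H A p) ∧
      ∀ (A : Type u) [CStarAlgebra A] (p : V → V → A), IsGameAlgebra G H A p →
        -- it is not zero
        Nontrivial A ∧
        ∀ (m n : ℕ) (M : Matrix (Fin m) (Fin n) (ZMod 2)) (b : Fin m → ZMod 2),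
          -- `C*(Γ(M,b))` exists
          (∃ (C : Type 1) (_ : CStarAlgebra C) (w : SolutionGroup M b →* unitary C),
            IsGroupCStar (SolutionGroup M b) C w) ∧
          -- there is no embedding of `𝒜(G,H)` in `C*(Γ(M,b))`
          ∀ (C : Type v) [CStarAlgebra C] (w : SolutionGroup M b →* unitary C),
            IsGroupCStar (SolutionGroup M b) C w →
            ¬ ∃ φ : A →⋆ₐ[ℂ] C, Function.Injective φ := by
  refine ⟨?_, ?_⟩
  · intro V W _ _ G H A _ p hA Λ _ C _ w hC φ
    exact nonempty_iso hA.fam hC φ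
  · refine ⟨Vtx, inferInstance, msGraph b1, msGraph b0, by decide, not_iso,
      exists_gameAlgebra _ _, ?_⟩
    intro A _ p hA
    refine ⟨?_, ?_⟩
    · obtain ⟨φ, -⟩ := hA.lift (CStarMatrix (Fin 4) (Fin 4) ℂ)
        (fun g h => CStarMatrix.ofMatrixStarAlgEquiv (PM g h))
        (PM_family.map (CStarMatrix.ofMatrixStarAlgEquiv : Matrix (Fin 4) (Fin 4) ℂ ≃⋆ₐ[ℂ]
          CStarMatrix (Fin 4) (Fin 4) ℂ).toStarAlgHom)
      by_contra hn
      rw [not_nontrivial_iff_subsingleton] at hn
      have h1 : (1 : CStarMatrix (Fin 4) (Fin 4) ℂ) = 0 := by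
        rw [← map_one φ, ← map_zero φ, Subsingleton.elim (1 : A) 0]
      exact one_ne_zero h1
    · intro m n M b
      refine ⟨exists_groupCStar _, ?_⟩
      rintro C _ w hC ⟨φ, -⟩
      exact not_iso (nonempty_iso hA.fam hC φ)

end Pool.Agent.Results.MP_3b70de_al.NoEmbedding
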